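import Pool.Agent.Lib.MP_bc13a4_co.Cyc.Pat

set_option autoImplicit false

namespace Pool.Agent.Lib.MP_bc13a4_co.Cyc

/-- the numerical check, third part -/
theorem check6c : ∀ m ∈ reps6c, sumP m ≤ sumN m + 23040 := by
  decide +kernel

end Pool.Agent.Lib.MP_bc13a4_co.Cyc
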