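import Pool.Agent.Lib.MP_bc13a4_co.Cyc.Mask
import Pool.Agent.Lib.MP_bc13a4_co.Cyc.ChkA
import Pool.Agent.Lib.MP_bc13a4_co.Cyc.ChkB
import Pool.Agent.Lib.MP_bc13a4_co.Cyc.ChkC

/-!
# The pointwise bound for the symmetrized test function
-/

set_option autoImplicit false

namespace Pool.Agent.Lib.MP_bc13a4_co.Cyc

open Finset

variable {V : Type*}

def PP (e : V → V → V → Bool) (w : Fin 6 → V) : ℕ := PhiP e (w 0) (w 1) (w 2) (w 3) (w 4) (w 5)

def NN (e : V → V → V → Bool) (w : Fin 6 → V) : ℕ := PhiN e (w 0) (w 1) (w 2) (w 3) (w 4) (w 5)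

section

variable {h h' : ℕ → ℕ → ℕ → Bool}
  (hh : ∀ a b c, a < 6 → b < 6 → c < 6 → h a b c = h' a b c)

include hh

lemma code4_congr {a b x y : ℕ} (ha : a < 6) (hb : b < 6) (hx : x < 6) (hy : y < 6) :
    code4 h a b x y = code4 h' a b x y := by
  unfold code4
  rw [hh a b x ha hb hx, hh a b y ha hb hy, hh a x y ha hx hy, hh b x y hb hx hy]

lemma gp_congr {a b c z : ℕ} (ha : a < 6) (hb : b < 6) (hc : c < 6) (hz : z < 6) :
    gp h a b c z = gp h' a b c z := by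
  unfold gp
  rw [hh z a c hz ha hc, hh z b c hz hb hc]

lemma PhiP_congr {a b c d e f : ℕ} (ha : a < 6) (hb : b < 6) (hc : c < 6) (hd : d < 6)
    (he : e < 6) (hf : f < 6) : PhiP h a b c d e f = PhiP h' a b c d e f := by
  unfold PhiP
  rw [hh a b c ha hb hc, hh a b d ha hb hd, code4_congr hh ha hb hc hd,
    code4_congr hh ha hb he hf, gp_congr hh ha hb hc he, gp_congr hh ha hb hc hf,
    gp_congr hh ha hb hd he, gp_congr hh ha hb hd hf]

lemma PhiN_congr {a b c d e f : ℕ} (ha : a < 6) (hb : b < 6) (hc : c < 6) (hd : d < 6)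
    (he : e < 6) (hf : f < 6) : PhiN h a b c d e f = PhiN h' a b c d e f := by
  unfold PhiN
  rw [hh a b c ha hb hc, hh a b d ha hb hd, code4_congr hh ha hb hc hd,
    code4_congr hh ha hb he hf, gp_congr hh ha hb hc he, gp_congr hh ha hb hc hf,
    gp_congr hh ha hb hd he, gp_congr hh ha hb hd hf]

end

lemma comp_toPerm {q : ℕ} (hq : isPerm q = true) (w : Fin 6 → V) (i : Fin 6) :
    (w ∘ toPerm q) i = ext w (dig q i) := by
  have h := ext_comp_toPerm hq w i.isLt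
  rw [← h]
  unfold ext
  congr 1
  apply Fin.ext
  rw [Fin.val_ofNat, Nat.mod_eq_of_lt i.isLt]

lemma sum_PP {e : V → V → V → Bool} (hs : Sym e) (w : Fin 6 → V) :
    ∑ σ : Equiv.Perm (Fin 6), PP e (w ∘ σ) = sumP (mask e w) := by
  rw [sum_perm (fun σ => PP e (w ∘ σ))]
  unfold sumP
  congr 1
  apply List.map_congr_left
  intro q hq
  have hp := (permL_ok.1 q hq).1
  have h0 := dig_lt_of hp 0
  have h1 := dig_lt_of hp 1
  have h2 := dig_lt_of hp 2
  have h3 := dig_lt_of hp 3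
  have h4 := dig_lt_of hp 4
  have h5 := dig_lt_of hp 5
  unfold PP
  rw [comp_toPerm hp, comp_toPerm hp, comp_toPerm hp, comp_toPerm hp, comp_toPerm hp,
    comp_toPerm hp]
  exact (PhiP_congr (h := fun a b c => e (ext w a) (ext w b) (ext w c))
    (fun a b c ha hb hc => (has_mask hs w ha hb hc).symm) h0 h1 h2 h3 h4 h5)

lemma sum_NN {e : V → V → V → Bool} (hs : Sym e) (w : Fin 6 → V) :
    ∑ σ : Equiv.Perm (Fin 6), NN e (w ∘ σ) = sumN (mask e w) := by
  rw [sum_perm (fun σ => NN e (w ∘ σ))]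
  unfold sumN
  congr 1
  apply List.map_congr_left
  intro q hq
  have hp := (permL_ok.1 q hq).1
  have h0 := dig_lt_of hp 0
  have h1 := dig_lt_of hp 1
  have h2 := dig_lt_of hp 2
  have h3 := dig_lt_of hp 3
  have h4 := dig_lt_of hp 4
  have h5 := dig_lt_of hp 5
  unfold NN
  rw [comp_toPerm hp, comp_toPerm hp, comp_toPerm hp, comp_toPerm hp, comp_toPerm hp,
    comp_toPerm hp]
  exact (PhiN_congr (h := fun a b c => e (ext w a) (ext w b) (ext w c))
    (fun a b c ha hb hc => (has_mask hs w ha hb hc).symm) h0 h1 h2 h3 h4 h5)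

/-- **pointwise bound** -/
theorem bound_free {e : V → V → V → Bool} (hs : Sym e) {w : Fin 6 → V} (hw : Free e w) :
    ∑ σ : Equiv.Perm (Fin 6), PP e (w ∘ σ) ≤ ∑ σ : Equiv.Perm (Fin 6), NN e (w ∘ σ) + 23040 := by
  obtain ⟨τ, hτ⟩ := exists_rep hs w hw
  have e1 : ∑ σ : Equiv.Perm (Fin 6), PP e (w ∘ σ)
      = ∑ σ : Equiv.Perm (Fin 6), PP e ((w ∘ τ) ∘ σ) := by
    rw [← Equiv.sum_comp (Equiv.mulLeft τ)]
    rfl
  have e2 : ∑ σ : Equiv.Perm (Fin 6), NN e (w ∘ σ)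
      = ∑ σ : Equiv.Perm (Fin 6), NN e ((w ∘ τ) ∘ σ) := by
    rw [← Equiv.sum_comp (Equiv.mulLeft τ)]
    rfl
  rw [e1, e2, sum_PP hs, sum_NN hs]
  rcases hτ with h | h | h
  · exact check6a _ h
  · exact check6b _ h
  · exact check6c _ h

theorem q2p_le : ∀ k < 16, ∀ l < 16, q2p k l ≤ 400 := by
  decide +kernel

lemma code4_lt {h : V → V → V → Bool} (a b x y : V) : code4 h a b x y < 16 := by
  unfold code4
  have h1 := Bool.toNat_le (h a b x)
  have h2 := Bool.toNat_le (h a b y)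
  have h3 := Bool.toNat_le (h a x y)
  have h4 := Bool.toNat_le (h b x y)
  omega

lemma gp_le {h : V → V → V → Bool} (a b c z : V) : gp h a b c z ≤ 2 := by
  unfold gp
  have h1 := Bool.toNat_le (h z a c)
  have h2 := Bool.toNat_le (h z b c)
  omega

/-- trivial bound -/
theorem bound_any (e : V → V → V → Bool) (w : Fin 6 → V) : PP e w ≤ 4300 := by
  unfold PP PhiP
  have h1 := q2p_le _ (code4_lt (h := e) (w 0) (w 1) (w 2) (w 3)) _
    (code4_lt (h := e) (w 0) (w 1) (w 4) (w 5))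
  have g1 := gp_le (h := e) (w 0) (w 1) (w 2) (w 4)
  have g2 := gp_le (h := e) (w 0) (w 1) (w 2) (w 5)
  have g3 := gp_le (h := e) (w 0) (w 1) (w 3) (w 4)
  have g4 := gp_le (h := e) (w 0) (w 1) (w 3) (w 5)
  have h2 : (bif e (w 0) (w 1) (w 2) then 144 else 0) ≤ 144 := by
    cases e (w 0) (w 1) (w 2) <;> simp
  have h3 : gp e (w 0) (w 1) (w 2) (w 4) * gp e (w 0) (w 1) (w 2) (w 5) ≤ 4 :=
    Nat.mul_le_mul g1 g2
  have h4 : gp e (w 0) (w 1) (w 3) (w 4) * gp e (w 0) (w 1) (w 3) (w 5) ≤ 4 :=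
    Nat.mul_le_mul g3 g4
  have h5 : (bif e (w 0) (w 1) (w 2) && e (w 0) (w 1) (w 3) then
      463 * (gp e (w 0) (w 1) (w 2) (w 4) * gp e (w 0) (w 1) (w 2) (w 5) +
        gp e (w 0) (w 1) (w 3) (w 4) * gp e (w 0) (w 1) (w 3) (w 5)) else 0) ≤ 3704 := by
    cases e (w 0) (w 1) (w 2) && e (w 0) (w 1) (w 3)
    · simp
    · rw [cond_true]
      omega
  omega

theorem bound_any_sum (e : V → V → V → Bool) (w : Fin 6 → V) :
    ∑ σ : Equiv.Perm (Fin 6), PP e (w ∘ σ) ≤ 720 * 4300 := by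
  refine (Finset.sum_le_card_nsmul _ _ 4300 fun σ _ => bound_any e _).trans ?_
  rw [Finset.card_univ, Fintype.card_perm, Fintype.card_fin]
  exact le_of_eq rfl

end Pool.Agent.Lib.MP_bc13a4_co.Cyc
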