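import Pool.Agent.Lib.MP_bc13a4_co.Cyc.Main

/-!
# The two dichotomies for 3-graphs with no or few five-point cycles minus an edge
-/

set_option autoImplicit false

namespace Pool.Agent.Lib.MP_bc13a4_co.Cyc

open Finset Dom Tri

section

variable {V : Type} [Fintype V] [DecidableEq V]

lemma sum_ed (H : Finset (Finset V)) (x : V → ℝ) :
    (∑ a, ∑ b, ∑ c, if ed H a b c = true then x a * x b * x c else 0) = 6 * lagr H x := by
  unfold lagr
  have h1 : ∀ a b c : V, (if ed H a b c = true then x a * x b * x c else 0) =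
      if ({a, b, c} : Finset V) ∈ H then x a * x b * x c else 0 := by
    intro a b c
    by_cases h : ({a, b, c} : Finset V) ∈ H
    · rw [if_pos (ed_iff.2 h), if_pos h]
    · rw [if_neg (fun h2 => h (ed_iff.1 h2)), if_neg h]
  simp only [h1]
  ring

/-- the Lagrangian without the three configurations -/
theorem lagr_le_free {H : Finset (Finset V)} (hH : ∀ e ∈ H, e.card = 3)
    (hF : ∀ w : Fin 6 → V, Free (ed H) w) {x : V → ℝ} (hx : IsWeight x) :
    lagr H x ≤ 1 / 27 := by
  classical
  have h := main_ineq (ed_sym hH) x hx.1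
  rw [sum_ed, hx.2] at h
  have h2 : (∑ w : Fin 6 → V, (if Free (ed H) w then 0 else wt x w)) = 0 :=
    Finset.sum_eq_zero fun w _ => if_pos (hF w)
  rw [h2] at h
  linarith

/-- **(1)** the gap -/
theorem gapC (H : Finset (Finset V)) (hH : ∀ e ∈ H, e.card = 3)
    (hC : ∀ f : Fin 5 → V, ¬ Cm H f) :
    (∀ y : V → ℝ, IsWeight y → lagr H y ≤ 1 / 27) ∨
      ∃ x : V → ℝ, IsWeight x ∧ 1 / 27 + 3 / 2000 ≤ lagr H x := by
  rcases isEmpty_or_nonempty V with hV | hV
  · left
    intro y hy
    exfalso
    have := hy.2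
    simp at this
  obtain ⟨x, hx, hmax⟩ := exists_max H
  by_cases hbig : 1 / 27 + 3 / 2000 ≤ lagr H x
  · exact Or.inr ⟨x, hx, hbig⟩
  · rw [not_le] at hbig
    left
    intro y hy
    refine lagr_le_free hH (fun w => ⟨?_, ?_, ?_⟩) hy
    · intro a b c d h1 h2 h3
      exact four H x hmax hbig (w a) (w b) (w c) (w d) (ed_iff.1 h1) (ed_iff.1 h2) (ed_iff.1 h3)
    · intro p q r s t h1 h2 h3 h4
      exact fiveF H x hmax hbig (w p) (w q) (w r) (w s) (w t) (ed_iff.1 h1) (ed_iff.1 h2)
        (ed_iff.1 h3) (ed_iff.1 h4)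
    · intro a b c d f h1 h2 h3 h4
      rcases c_cases hH (ed_iff.1 h1) (ed_iff.1 h2) (ed_iff.1 h3) (ed_iff.1 h4) with h | h
      · exact hC _ h
      · exact four H x hmax hbig (w d) (w a) (w b) (w c) h.1 h.2.1 h.2.2

omit [Fintype V] in
/-- a six-tuple which is not free contains one of the three configurations -/
lemma bad_cases {H : Finset (Finset V)} (hH : ∀ e ∈ H, e.card = 3) {w : Fin 6 → V}
    (hw : ¬ Free (ed H) w) :
    (∃ f : Fin 4 → Fin 6, Emb P4 H (w ∘ f)) ∨ (∃ f : Fin 5 → Fin 6, Emb P5 H (w ∘ f)) ∨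
      (∃ f : Fin 5 → Fin 6, Cm H (w ∘ f)) := by
  by_contra hcon
  rw [not_or, not_or] at hcon
  obtain ⟨n4, n5, nc⟩ := hcon
  apply hw
  have k4 : ∀ a b c d : Fin 6, ({w a, w b, w c} : Finset V) ∈ H →
      ({w a, w b, w d} : Finset V) ∈ H → ({w a, w c, w d} : Finset V) ∈ H → False := by
    intro a b c d h1 h2 h3
    refine n4 ⟨![a, b, c, d], ?_⟩
    intro e he
    simp only [P4, Finset.mem_insert, Finset.mem_singleton] at he
    rcases he with rfl | rfl | rfl
    · simpa [Finset.image_insert] using h1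
    · simpa [Finset.image_insert] using h2
    · simpa [Finset.image_insert] using h3
  refine ⟨?_, ?_, ?_⟩
  · intro a b c d h1 h2 h3
    exact k4 a b c d (ed_iff.1 h1) (ed_iff.1 h2) (ed_iff.1 h3)
  · intro p q r s t h1 h2 h3 h4
    rw [ed_iff] at h1 h2 h3 h4
    refine n5 ⟨![p, q, r, s, t], ?_⟩
    intro e he
    simp only [P5, Finset.mem_insert, Finset.mem_singleton] at he
    rcases he with rfl | rfl | rfl | rfl
    · simpa [Finset.image_insert] using h1
    · simpa [Finset.image_insert] using h2
    · simpa [Finset.image_insert] using h3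
    · simpa [Finset.image_insert] using h4
  · intro a b c d f h1 h2 h3 h4
    rcases c_cases hH (ed_iff.1 h1) (ed_iff.1 h2) (ed_iff.1 h3) (ed_iff.1 h4) with h | h
    · refine nc ⟨![c, d, b, a, f], ?_⟩
      have h5 : w ∘ ![c, d, b, a, f] = ![w c, w d, w b, w a, w f] := by
        funext i
        fin_cases i <;> rfl
      rw [h5]
      exact h
    · exact k4 d a b c h.1 h.2.1 h.2.2

/-- number of six-tuples which contain a configuration -/
lemma cnt {a : ℕ} (R : (Fin a → V) → Prop) [DecidablePred R]
    [DecidablePred fun g : Fin 6 → V => ∃ f : Fin a → Fin 6, R (g ∘ f)]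
    (hR : ∀ h, R h → Function.Injective h) :
    ((Finset.univ.filter (fun g : Fin 6 → V =>
        ∃ f : Fin a → Fin 6, R (g ∘ f))).card : ℝ)
      ≤ (6 : ℝ) ^ a * ((Fintype.card V : ℝ) ^ (6 - a) *
        ((Finset.univ.filter (fun h : Fin a → V => R h)).card : ℝ)) := by
  classical
  have h1 : Finset.univ.filter (fun g : Fin 6 → V => ∃ f : Fin a → Fin 6, R (g ∘ f))
      ⊆ (Finset.univ : Finset (Fin a → Fin 6)).biUnion (fun f =>
        if Function.Injective f then
          Finset.univ.filter (fun g : Fin 6 → V => R (g ∘ f)) else ∅) := by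
    intro g hg
    obtain ⟨f, hf⟩ := (Finset.mem_filter.1 hg).2
    rw [Finset.mem_biUnion]
    refine ⟨f, Finset.mem_univ _, ?_⟩
    have hinj : Function.Injective f := Function.Injective.of_comp (hR _ hf)
    rw [if_pos hinj]
    simp only [Finset.mem_filter, Finset.mem_univ, true_and]
    exact hf
  have h2 : ∀ f : Fin a → Fin 6, ((if Function.Injective f then
          Finset.univ.filter (fun g : Fin 6 → V => R (g ∘ f)) else
            ∅).card : ℝ) ≤ (Fintype.card V : ℝ) ^ (6 - a) *
        ((Finset.univ.filter (fun h : Fin a → V => R h)).card : ℝ) := by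
    intro f
    by_cases hf : Function.Injective f
    · rw [if_pos hf]
      have h3 := sum_comp_eq (V := V) f hf (fun h => if R h then 1 else 0)
      rw [Finset.sum_ite, Finset.sum_const, Finset.sum_const_zero, add_zero, nsmul_eq_mul,
        mul_one, Finset.sum_ite, Finset.sum_const, Finset.sum_const_zero, add_zero,
        nsmul_eq_mul, mul_one] at h3
      simp only [Fintype.card_fin] at h3
      exact le_of_eq h3
    · rw [if_neg hf]
      simp only [Finset.card_empty, Nat.cast_zero]
      positivity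
  have h3 := (Finset.card_le_card h1).trans Finset.card_biUnion_le
  have h4 : ((Finset.univ.filter (fun g : Fin 6 → V =>
        ∃ f : Fin a → Fin 6, R (g ∘ f))).card : ℝ)
      ≤ ∑ f : Fin a → Fin 6, ((if Function.Injective f then
          Finset.univ.filter (fun g : Fin 6 → V => R (g ∘ f)) else
            ∅).card : ℝ) := by
    exact_mod_cast h3
  refine h4.trans ((Finset.sum_le_sum fun f _ => h2 f).trans ?_)
  rw [Finset.sum_const, Finset.card_univ, nsmul_eq_mul, Fintype.card_fun, Fintype.card_fin,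
    Fintype.card_fin]
  push_cast
  exact le_rfl

end

end Pool.Agent.Lib.MP_bc13a4_co.Cyc
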