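import Pool.Agent.Lib.MP_bc13a4_co.Cyc.Dich

/-!
# Dense 3-graphs with few five-point cycles minus an edge
-/

set_option autoImplicit false

namespace Pool.Agent.Lib.MP_bc13a4_co.Cyc

open Finset Dom Tri

section

variable {V : Type} [Fintype V] [DecidableEq V]

open Classical in
/-- the main inequality for the counting weights -/
lemma dense_bad {H : Finset (Finset V)} (hH : ∀ e ∈ H, e.card = 3) {ε : ℝ}
    (hden : (1 / 27 + ε) * (Fintype.card V : ℝ) ^ 3 ≤ (H.card : ℝ)) :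
    864 * ε * (Fintype.card V : ℝ) ^ 6 ≤
      4300 * ((Finset.univ.filter (fun w : Fin 6 → V => ¬ Free (ed H) w)).card : ℝ) := by
  have h := main_ineq (ed_sym hH) (fun _ : V => (1 : ℝ)) (fun _ => zero_le_one)
  have h1 : (∑ a : V, ∑ b : V, ∑ c : V, if ed H a b c = true then (1 : ℝ) * 1 * 1 else 0) =
      6 * (H.card : ℝ) := by
    rw [← oc_eq H hH]
    unfold oc
    refine Finset.sum_congr rfl fun a _ => Finset.sum_congr rfl fun b _ =>
      Finset.sum_congr rfl fun c _ => ?_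
    by_cases hc : ({a, b, c} : Finset V) ∈ H
    · rw [if_pos (ed_iff.2 hc), if_pos hc]
      norm_num
    · rw [if_neg (fun h2 => hc (ed_iff.1 h2)), if_neg hc]
  have h2 : (∑ _v : V, (1 : ℝ)) = (Fintype.card V : ℝ) := by simp
  have h3 : (∑ w : Fin 6 → V, (if Free (ed H) w then 0 else wt (fun _ : V => (1 : ℝ)) w)) =
      ((Finset.univ.filter (fun w : Fin 6 → V => ¬ Free (ed H) w)).card : ℝ) := by
    have h4 : ∀ w : Fin 6 → V, (if Free (ed H) w then 0 else wt (fun _ : V => (1 : ℝ)) w) =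
        if ¬ Free (ed H) w then (1 : ℝ) else 0 := by
      intro w
      by_cases hF : Free (ed H) w
      · rw [if_pos hF, if_neg (not_not.2 hF)]
      · rw [if_neg hF, if_pos hF]
        unfold wt
        simp
    rw [Finset.sum_congr rfl fun w _ => h4 w, Finset.sum_ite, Finset.sum_const,
      Finset.sum_const_zero, add_zero, nsmul_eq_mul, mul_one]
  rw [h1, h2, h3] at h
  have h5 : (0 : ℝ) ≤ (Fintype.card V : ℝ) ^ 3 := by positivity
  have h6 := mul_le_mul_of_nonneg_right (mul_le_mul_of_nonneg_left hden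
    (show (0 : ℝ) ≤ 864 by norm_num)) h5
  have h7 : 864 * ((1 / 27 + ε) * (Fintype.card V : ℝ) ^ 3) * (Fintype.card V : ℝ) ^ 3 =
      32 * (Fintype.card V : ℝ) ^ 6 + 864 * ε * (Fintype.card V : ℝ) ^ 6 := by ring
  rw [h7] at h6
  linarith

open Classical in
/-- one of the three configurations has positive density -/
theorem density_cases {H : Finset (Finset V)} (hH : ∀ e ∈ H, e.card = 3) {ε : ℝ} (hε : 0 < ε)
    (hV : 0 < Fintype.card V)
    (hden : (1 / 27 + ε) * (Fintype.card V : ℝ) ^ 3 ≤ (H.card : ℝ)) :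
    ε / 400000 * (Fintype.card V : ℝ) ^ 4 ≤
        ((Finset.univ.filter (fun h : Fin 4 → V => Emb P4 H h)).card : ℝ) ∨
      ε / 400000 * (Fintype.card V : ℝ) ^ 5 ≤
        ((Finset.univ.filter (fun h : Fin 5 → V => Emb P5 H h)).card : ℝ) ∨
      ε / 50000 * (Fintype.card V : ℝ) ^ 5 <
        ((Finset.univ.filter (fun h : Fin 5 → V => Cm H h)).card : ℝ) := by
  by_contra hcon
  rw [not_or, not_or, not_le, not_le, not_lt] at hcon
  obtain ⟨b4, b5, bc⟩ := hcon
  have h0 := dense_bad hH hden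
  set n : ℝ := (Fintype.card V : ℝ) with hn
  have hn0 : 0 < n := by rw [hn]; exact_mod_cast hV
  have c4 := cnt (fun h : Fin 4 → V => Emb P4 H h) fun h hh => emb_injective Tri.good4 hH hh
  have c5 := cnt (fun h : Fin 5 → V => Emb P5 H h) fun h hh => emb_injective Tri.good5 hH hh
  have cc := cnt (fun h : Fin 5 → V => Cm H h) fun h hh => hh.1
  rw [← hn] at c4 c5 cc
  have hsub : (Finset.univ.filter (fun w : Fin 6 → V => ¬ Free (ed H) w)) ⊆
      (Finset.univ.filter (fun g : Fin 6 → V => ∃ f : Fin 4 → Fin 6, Emb P4 H (g ∘ f))) ∪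
      ((Finset.univ.filter (fun g : Fin 6 → V => ∃ f : Fin 5 → Fin 6, Emb P5 H (g ∘ f))) ∪
      (Finset.univ.filter (fun g : Fin 6 → V => ∃ f : Fin 5 → Fin 6, Cm H (g ∘ f)))) := by
    intro w hw
    simp only [Finset.mem_union, Finset.mem_filter, Finset.mem_univ, true_and] at hw ⊢
    exact bad_cases hH hw
  have h1 := (Finset.card_le_card hsub).trans ((Finset.card_union_le _ _).trans
    (Nat.add_le_add_left (Finset.card_union_le _ _) _))
  have h2 : ((Finset.univ.filter (fun w : Fin 6 → V => ¬ Free (ed H) w)).card : ℝ) ≤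
      ((Finset.univ.filter (fun g : Fin 6 → V => ∃ f : Fin 4 → Fin 6,
        Emb P4 H (g ∘ f))).card : ℝ) +
      (((Finset.univ.filter (fun g : Fin 6 → V => ∃ f : Fin 5 → Fin 6,
        Emb P5 H (g ∘ f))).card : ℝ) +
      ((Finset.univ.filter (fun g : Fin 6 → V => ∃ f : Fin 5 → Fin 6,
        Cm H (g ∘ f))).card : ℝ)) := by
    exact_mod_cast h1
  have e4 : (6 : ℝ) ^ 4 * (n ^ (6 - 4) * ((Finset.univ.filter
      (fun h : Fin 4 → V => Emb P4 H h)).card : ℝ)) ≤ 1296 * (ε / 400000) * n ^ 6 := by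
    have h3 := mul_le_mul_of_nonneg_left b4.le (show (0 : ℝ) ≤ 1296 * n ^ 2 by positivity)
    calc (6 : ℝ) ^ 4 * (n ^ (6 - 4) * ((Finset.univ.filter
        (fun h : Fin 4 → V => Emb P4 H h)).card : ℝ)) = 1296 * n ^ 2 * ((Finset.univ.filter
        (fun h : Fin 4 → V => Emb P4 H h)).card : ℝ) := by norm_num; ring
      _ ≤ 1296 * n ^ 2 * (ε / 400000 * n ^ 4) := h3
      _ = 1296 * (ε / 400000) * n ^ 6 := by ring
  have e5 : (6 : ℝ) ^ 5 * (n ^ (6 - 5) * ((Finset.univ.filter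
      (fun h : Fin 5 → V => Emb P5 H h)).card : ℝ)) ≤ 7776 * (ε / 400000) * n ^ 6 := by
    have h3 := mul_le_mul_of_nonneg_left b5.le (show (0 : ℝ) ≤ 7776 * n by positivity)
    calc (6 : ℝ) ^ 5 * (n ^ (6 - 5) * ((Finset.univ.filter
        (fun h : Fin 5 → V => Emb P5 H h)).card : ℝ)) = 7776 * n * ((Finset.univ.filter
        (fun h : Fin 5 → V => Emb P5 H h)).card : ℝ) := by norm_num; ring
      _ ≤ 7776 * n * (ε / 400000 * n ^ 5) := h3
      _ = 7776 * (ε / 400000) * n ^ 6 := by ring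
  have ec : (6 : ℝ) ^ 5 * (n ^ (6 - 5) * ((Finset.univ.filter
      (fun h : Fin 5 → V => Cm H h)).card : ℝ)) ≤ 7776 * (ε / 50000) * n ^ 6 := by
    have h3 := mul_le_mul_of_nonneg_left bc (show (0 : ℝ) ≤ 7776 * n by positivity)
    calc (6 : ℝ) ^ 5 * (n ^ (6 - 5) * ((Finset.univ.filter
        (fun h : Fin 5 → V => Cm H h)).card : ℝ)) = 7776 * n * ((Finset.univ.filter
        (fun h : Fin 5 → V => Cm H h)).card : ℝ) := by norm_num; ring
      _ ≤ 7776 * n * (ε / 50000 * n ^ 5) := h3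
      _ = 7776 * (ε / 50000) * n ^ 6 := by ring
  have h3 : ((Finset.univ.filter (fun w : Fin 6 → V => ¬ Free (ed H) w)).card : ℝ) ≤
      1296 * (ε / 400000) * n ^ 6 + (7776 * (ε / 400000) * n ^ 6 +
        7776 * (ε / 50000) * n ^ 6) :=
    h2.trans (add_le_add (c4.trans e4) (add_le_add (c5.trans e5) (cc.trans ec)))
  have h4 : 0 < ε * n ^ 6 := by positivity
  have e1 : 864 * ε * n ^ 6 = 864 * (ε * n ^ 6) := by ring
  have e2 : 1296 * (ε / 400000) * n ^ 6 + (7776 * (ε / 400000) * n ^ 6 +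
        7776 * (ε / 50000) * n ^ 6) = 71280 / 400000 * (ε * n ^ 6) := by ring
  rw [e1] at h0
  rw [e2] at h3
  linarith

end

open Classical in
/-- **(2)** the dichotomy for dense 3-graphs -/
theorem q1C : ∀ ε : ℝ, 0 < ε → ∀ m : ℕ, 60000 ≤ m → ∃ n0 : ℕ, ∀ n : ℕ, n0 < n →
    ∀ H : Finset (Finset (Fin n)), (∀ e ∈ H, e.card = 3) →
      (1 / 27 + ε) * (n : ℝ) ^ 3 ≤ (H.card : ℝ) →
      ((Finset.univ.filter (fun f : Fin 5 → Fin n => Cm H f)).card : ℝ) ≤
        ε / 50000 * (n : ℝ) ^ 5 →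
      ∃ S : Finset (Fin n), S.card = m ∧
        (1 / 27 + 3 / 2000) * (m : ℝ) ^ 3 ≤ ((H.filter (fun e => e ⊆ S)).card : ℝ) := by
  intro ε hε m hm
  have hδ : 0 < ε / 400000 := by positivity
  obtain ⟨n4, h4⟩ := finish P4 Tri.good4 ![3, 2, 2, 2] 9 (by decide) (by norm_num)
    (by norm_num)
    (by
      have h1 : (∑ i : Fin 4, ∑ j : Fin 4, ∑ l : Fin 4,
        if ({i, j, l} : Finset (Fin 4)) ∈ P4 then ((![3, 2, 2, 2] : Fin 4 → ℕ) i) *
          (![3, 2, 2, 2] : Fin 4 → ℕ) j * (![3, 2, 2, 2] : Fin 4 → ℕ) l else 0) = 216 := by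
        decide +kernel
      have h2 : (∑ i : Fin 4, ∑ j : Fin 4, ∑ l : Fin 4,
        if ({i, j, l} : Finset (Fin 4)) ∈ P4 then (((![3, 2, 2, 2] : Fin 4 → ℕ) i : ℕ) : ℝ) *
          ((![3, 2, 2, 2] : Fin 4 → ℕ) j : ℕ) * ((![3, 2, 2, 2] : Fin 4 → ℕ) l : ℕ) else 0)
          = ((216 : ℕ) : ℝ) := by
        rw [← h1]
        push_cast
        rfl
      rw [h2]
      norm_num) _ hδ m hm
  obtain ⟨n5, h5⟩ := finish P5 Tri.good5 ![3, 3, 3, 8, 8] 25 (by decide) (by norm_num)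
    (by norm_num)
    (by
      have h1 : (∑ i : Fin 5, ∑ j : Fin 5, ∑ l : Fin 5,
        if ({i, j, l} : Finset (Fin 5)) ∈ P5 then ((![3, 3, 3, 8, 8] : Fin 5 → ℕ) i) *
          (![3, 3, 3, 8, 8] : Fin 5 → ℕ) j * (![3, 3, 3, 8, 8] : Fin 5 → ℕ) l else 0) = 3618 := by
        decide +kernel
      have h2 : (∑ i : Fin 5, ∑ j : Fin 5, ∑ l : Fin 5,
        if ({i, j, l} : Finset (Fin 5)) ∈ P5 then (((![3, 3, 3, 8, 8] : Fin 5 → ℕ) i : ℕ) : ℝ) *
          ((![3, 3, 3, 8, 8] : Fin 5 → ℕ) j : ℕ) * ((![3, 3, 3, 8, 8] : Fin 5 → ℕ) l : ℕ) else 0)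
          = ((3618 : ℕ) : ℝ) := by
        rw [← h1]
        push_cast
        rfl
      rw [h2]
      norm_num) _ hδ m hm
  refine ⟨max n4 n5, fun n hn H hH hD hC => ?_⟩
  have b4 : n4 < n := lt_of_le_of_lt (le_max_left _ _) hn
  have b5 : n5 < n := lt_of_le_of_lt (le_max_right _ _) hn
  have hdens := density_cases (V := Fin n) hH hε (by rw [Fintype.card_fin]; omega)
    (by rw [Fintype.card_fin]; exact hD)
  rcases hdens with h | h | h
  · exact h4 (Fin n) H hH (by rw [Fintype.card_fin]; exact b4) (by convert h)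
  · exact h5 (Fin n) H hH (by rw [Fintype.card_fin]; exact b5) (by convert h)
  · rw [Fintype.card_fin] at h
    exact absurd hC (not_le.2 h)

end Pool.Agent.Lib.MP_bc13a4_co.Cyc
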