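import Pool.Agent.Lib.MP_bc13a4_co.Cyc.Psd
import Pool.Agent.Lib.MP_bc13a4_co.Tri.Final

/-!
# The main inequality for 3-graphs and the Lagrangian gap without the five-point cycle minus an edge
-/

set_option autoImplicit false

namespace Pool.Agent.Lib.MP_bc13a4_co.Cyc

open Finset Dom Tri

section

variable {V : Type*} [Fintype V]

omit [Fintype V] in
lemma wt_comp (x : V → ℝ) (w : Fin 6 → V) (σ : Equiv.Perm (Fin 6)) :
    wt x (w ∘ σ) = wt x w := by
  unfold wt
  exact Equiv.prod_comp σ (fun i => x (w i))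

lemma sum_comp_perm (F : (Fin 6 → V) → ℝ) (σ : Equiv.Perm (Fin 6)) :
    ∑ w : Fin 6 → V, F (w ∘ σ) = ∑ w : Fin 6 → V, F w :=
  Fintype.sum_equiv (Equiv.arrowCongr σ.symm (Equiv.refl V)) _ _ fun w => rfl

lemma sum_wt (x : V → ℝ) : ∑ w : Fin 6 → V, wt x w = (∑ v, x v) ^ 6 := by
  rw [Fintype.sum_pow]
  rfl

open Classical in
theorem main_ineq {e : V → V → V → Bool} (hs : Sym e) (x : V → ℝ) (hx : ∀ v, 0 ≤ x v) :
    144 * (∑ a, ∑ b, ∑ c, if e a b c = true then x a * x b * x c else 0) * (∑ v, x v) ^ 3 ≤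
      32 * (∑ v, x v) ^ 6 +
        4300 * ∑ w : Fin 6 → V, (if Free e w then 0 else wt x w) := by
  have h0 := mean_ge e x hx
  set D : (Fin 6 → V) → ℝ := fun w => (PP e w : ℝ) - (NN e w : ℝ) with hD
  have h1 : (720 : ℝ) * ∑ w : Fin 6 → V, wt x w * D w =
      ∑ w : Fin 6 → V, wt x w * ∑ σ : Equiv.Perm (Fin 6), D (w ∘ σ) := by
    have h2 : ∀ σ : Equiv.Perm (Fin 6),
        ∑ w : Fin 6 → V, wt x w * D (w ∘ σ) = ∑ w : Fin 6 → V, wt x w * D w := by
      intro σ
      rw [← sum_comp_perm (fun w => wt x w * D w) σ]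
      exact Finset.sum_congr rfl fun w _ => by rw [wt_comp]
    have h3 : ∑ σ : Equiv.Perm (Fin 6), ∑ w : Fin 6 → V, wt x w * D (w ∘ σ) =
        (720 : ℝ) * ∑ w : Fin 6 → V, wt x w * D w := by
      rw [Finset.sum_congr rfl fun σ _ => h2 σ, Finset.sum_const, Finset.card_univ,
        Fintype.card_perm, Fintype.card_fin, nsmul_eq_mul]
      norm_num [Nat.factorial]
    rw [← h3, Finset.sum_comm]
    exact Finset.sum_congr rfl fun w _ => by rw [Finset.mul_sum]
  have h4 : ∀ w : Fin 6 → V, wt x w * ∑ σ : Equiv.Perm (Fin 6), D (w ∘ σ) ≤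
      23040 * wt x w + 720 * 4300 * (if Free e w then 0 else wt x w) := by
    intro w
    have hw0 : 0 ≤ wt x w := Finset.prod_nonneg fun i _ => hx _
    have e1 : ∑ σ : Equiv.Perm (Fin 6), D (w ∘ σ) =
        ((∑ σ : Equiv.Perm (Fin 6), PP e (w ∘ σ) : ℕ) : ℝ) -
          ((∑ σ : Equiv.Perm (Fin 6), NN e (w ∘ σ) : ℕ) : ℝ) := by
      push_cast
      rw [← Finset.sum_sub_distrib]
    split_ifs with hF
    · have h5 := bound_free hs hF
      have h6 : ((∑ σ : Equiv.Perm (Fin 6), PP e (w ∘ σ) : ℕ) : ℝ) ≤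
          ((∑ σ : Equiv.Perm (Fin 6), NN e (w ∘ σ) : ℕ) : ℝ) + 23040 := by exact_mod_cast h5
      rw [e1]
      refine (mul_le_mul_of_nonneg_left (sub_le_iff_le_add'.2 h6) hw0).trans (le_of_eq ?_)
      ring
    · have h5 := bound_any_sum e w
      have h6 : ((∑ σ : Equiv.Perm (Fin 6), PP e (w ∘ σ) : ℕ) : ℝ) ≤ 720 * 4300 := by
        exact_mod_cast h5
      have h7 : (0 : ℝ) ≤ ((∑ σ : Equiv.Perm (Fin 6), NN e (w ∘ σ) : ℕ) : ℝ) :=
        Nat.cast_nonneg _
      rw [e1]
      have h8 : ((∑ σ : Equiv.Perm (Fin 6), PP e (w ∘ σ) : ℕ) : ℝ) -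
          ((∑ σ : Equiv.Perm (Fin 6), NN e (w ∘ σ) : ℕ) : ℝ) ≤ 23040 + 720 * 4300 := by
        linarith
      refine (mul_le_mul_of_nonneg_left h8 hw0).trans (le_of_eq ?_)
      ring
  have h5 := Finset.sum_le_sum fun w (_ : w ∈ (Finset.univ : Finset (Fin 6 → V))) => h4 w
  rw [← h1, Finset.sum_add_distrib, ← Finset.mul_sum, ← Finset.mul_sum, sum_wt] at h5
  linarith

end

section

variable {V : Type} [Fintype V] [DecidableEq V]

def ed (H : Finset (Finset V)) (a b c : V) : Bool := decide (({a, b, c} : Finset V) ∈ H)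

omit [Fintype V] in
lemma ed_iff {H : Finset (Finset V)} {a b c : V} :
    ed H a b c = true ↔ ({a, b, c} : Finset V) ∈ H := by
  unfold ed
  exact decide_eq_true_iff

omit [Fintype V] in
lemma ed_sym {H : Finset (Finset V)} (hH : ∀ e ∈ H, e.card = 3) : Sym (ed H) where
  s1 a b c := by unfold ed; rw [swap12]
  s2 a b c := by unfold ed; rw [swap23]
  ir a b := by
    unfold ed
    rw [decide_eq_false_iff_not]
    exact pair_not_card H hH a b

/-- a copy of the tight cycle on five points without one edge -/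
def Cm (H : Finset (Finset V)) (f : Fin 5 → V) : Prop :=
  Function.Injective f ∧ ({f 0, f 1, f 2} : Finset V) ∈ H ∧ ({f 1, f 2, f 3} : Finset V) ∈ H ∧
    ({f 2, f 3, f 4} : Finset V) ∈ H ∧ ({f 3, f 4, f 0} : Finset V) ∈ H

omit [Fintype V] in
lemma c_cases {H : Finset (Finset V)} (hH : ∀ e ∈ H, e.card = 3) {a b c d f : V}
    (h1 : ({a, b, d} : Finset V) ∈ H) (h2 : ({b, c, d} : Finset V) ∈ H)
    (h3 : ({a, b, f} : Finset V) ∈ H) (h4 : ({a, c, f} : Finset V) ∈ H) :
    Cm H ![c, d, b, a, f] ∨ (({d, a, b} : Finset V) ∈ H ∧ ({d, a, c} : Finset V) ∈ H ∧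
      ({d, b, c} : Finset V) ∈ H) := by
  have d1 := (card_three_iff a b d).1 (hH _ h1)
  have d2 := (card_three_iff b c d).1 (hH _ h2)
  have d3 := (card_three_iff a b f).1 (hH _ h3)
  have d4 := (card_three_iff a c f).1 (hH _ h4)
  by_cases hdf : d = f
  · right
    subst hdf
    exact ⟨by rw [rot]; exact h1, by rw [rot]; exact h4, by rw [rot]; exact h2⟩
  · left
    obtain ⟨ab, bd, ad⟩ := d1
    obtain ⟨bc, cd, -⟩ := d2
    obtain ⟨-, bf, af⟩ := d3
    obtain ⟨ac, cf, -⟩ := d4
    refine ⟨?_, ?_, ?_, ?_, ?_⟩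
    · intro i j hij
      fin_cases i <;> fin_cases j <;> first
        | rfl
        | (exfalso
           simp at hij
           first
            | exact ab hij | exact ab hij.symm | exact bd hij | exact bd hij.symm
            | exact ad hij | exact ad hij.symm | exact bc hij | exact bc hij.symm
            | exact cd hij | exact cd hij.symm | exact bf hij | exact bf hij.symm
            | exact af hij | exact af hij.symm | exact ac hij | exact ac hij.symm
            | exact cf hij | exact cf hij.symm | exact hdf hij | exact hdf hij.symm)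
    · change ({c, d, b} : Finset V) ∈ H
      rw [rot, rot]
      exact h2
    · change ({d, b, a} : Finset V) ∈ H
      rw [swap12, swap23, swap12]
      rw [swap12, swap23, swap12]
      rw [rot, swap12]
      exact h1
    · change ({b, a, f} : Finset V) ∈ H
      rw [swap12]
      exact h3
    · change ({a, f, c} : Finset V) ∈ H
      rw [swap23]
      exact h4

end

end Pool.Agent.Lib.MP_bc13a4_co.Cyc
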