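import Pool.Agent.Lib.MP_bc13a4_co.Cyc.Cls

set_option autoImplicit false

namespace Pool.Agent.Lib.MP_bc13a4_co.Cyc

def tB1 : List ℕ := [
    181896, 146056, 146000, 145937, 142024, 141128, 137040, 144488, 142017, 141121, 144425,
    132945, 142024, 137922, 143914, 137026, 132938, 137936, 133841, 109320, 108872, 104784,
    115816, 144488, 144488, 144040, 144488, 83784, 83784, 144453, 115725, 140904, 51024, 144005,
    51024, 115221, 136872, 144453, 109313, 108865, 115753, 100689, 80200, 80200, 115781, 144397,
    144425, 144425, 144425, 143529, 140841, 18257, 143501, 114773, 18257, 144397, 132777,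
    109320, 108648, 108585, 83784, 115221, 144453, 144397, 105218, 115242, 104770, 100682,
    47440, 115333, 47440, 143893, 14673, 114829, 143445, 14673, 143893, 143914, 143914, 143914,
    143466, 136746, 132714, 105232, 104616, 115725, 115781, 104490, 51024, 143893, 101137,
    115781, 100521, 115725, 100458, 115221, 18257, 88264, 83784, 51024, 18257, 139819, 83784,
    51024, 132189, 139371, 83777, 136221, 18257, 139819, 135339, 139805, 51010, 18250, 136235,
    132203, 107052, 80200, 47440, 99429, 83784, 83784, 139973, 106765, 51024, 136389, 51024,
    102677, 139973, 106604, 80193, 103461, 14673, 80200, 80200, 107269, 139469, 18257, 132301,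
    99093, 18257, 139469, 107052, 102677, 102572, 107045, 47426, 14666, 47440, 103685, 47440,
    135381, 14673, 99597, 131797, 14673, 135381, 103468, 106765, 99436, 107269]

theorem walkB1 : walk (goodB 1) (okB 1) 1024 0 tB1 = true := by decide +kernel

def tB2 : List ℕ := [
    181896, 153224, 146056, 146049, 142024, 144712, 142017, 144705, 152090, 109320, 108872,
    116040, 116040, 83784, 144488, 83784, 144488, 136872, 109313, 108865, 116033, 116033, 83777,
    144425, 83777, 144425, 132777, 109320, 144453, 120968, 117384, 117384, 117377, 136746,
    136746, 132714, 132714, 143914, 109320, 115816, 108585, 144005, 109313, 108648, 115753,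
    143501, 88264, 84680, 136235, 132203, 84680, 136235, 84673, 132203, 139819, 80648, 83560,
    79913, 139973, 80641, 79976, 83497, 139469, 55504, 135381, 51920, 19153, 51864, 51920,
    19097, 19153, 55504, 22737]

theorem walkB2 : walk (goodB 3) (okB 3) 1024 0 tB2 = true := by decide +kernel

end Pool.Agent.Lib.MP_bc13a4_co.Cyc
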