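import Pool.Agent.Lib.MP_bc13a4_co.Cyc.Cls

set_option autoImplicit false

namespace Pool.Agent.Lib.MP_bc13a4_co.Cyc

def tB3 : List ℕ := [
    181896, 181896, 146056, 146049, 142024, 144712, 142017, 144705, 153224, 109320, 116040,
    83784, 144712, 144488, 109313, 116033, 83777, 144705, 144425, 120968, 115816, 115753,
    168218, 88264, 83560, 83497, 168211, 168148]

theorem walkB3 : walk (goodB 19) (okB 19) 1024 0 tB3 = true := by decide +kernel

def tB4 : List ℕ := [
    181896, 181896, 178256, 146056, 146056, 146056, 117328, 174168, 142024, 146056, 142024,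
    142024, 142024, 153217, 84568, 180762, 153224, 146056, 142024, 169632, 105232, 117328,
    72472, 144488, 84568, 140904, 144712, 54944, 104770, 72003, 177185, 120912, 117328, 88152,
    141121, 84568, 144705, 144705, 144705, 144425, 140841, 105232, 105232, 105232, 120898,
    47776, 104616, 115536, 115816, 115816, 144040, 143697, 43240, 47776, 115522, 115522, 144040,
    47776, 71464, 105232, 42820, 115816, 104490, 22737, 72472, 72472, 43744, 71912, 83560,
    83560, 47272, 72472, 140008, 88131, 82776, 139609, 43744, 82755, 47272, 82755, 43744,
    103720, 72472, 46404, 83560, 71723, 22681, 54916, 46432, 102754, 69987, 22737, 46404]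

theorem walkB4 : walk (goodB 20) (okB 20) 1024 0 tB4 = true := by decide +kernel

def tB5 : List ℕ := [
    181896, 181896, 178256, 146056, 152776, 152776, 152769, 153224, 146056, 119568, 119568,
    84680, 84680, 47888, 120912, 117328, 84680, 141121, 144705, 144705, 119554, 47888, 117265,
    104770, 172579, 88152, 54944, 141835, 88152, 84568, 55056, 140008, 54944, 88264, 103720,
    82776, 22737, 47776, 22737]

theorem walkB5 : walk (goodB 21) (okB 21) 1024 0 tB5 = true := by decide +kernel

end Pool.Agent.Lib.MP_bc13a4_co.Cyc
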