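import Pool.Agent.Lib.MP_bc13a4_co.Cyc.Cls

set_option autoImplicit false

namespace Pool.Agent.Lib.MP_bc13a4_co.Cyc

def tB6 : List ℕ := [
    181896, 181896, 181840, 181777, 153224, 181336, 181273, 152776, 180762, 169632, 176912,
    120898, 172824, 88131, 144712, 165537, 120842, 176401, 88075, 172313, 144705, 176674,
    120898, 120898, 120842, 55504, 22737, 144208, 168162, 169492, 144040, 165460, 117328,
    172579, 88131, 55448, 22681, 140120, 88131, 88075, 168099, 168988, 140008, 164956, 84568,
    168148, 55504]

theorem walkB6 : walk (goodB 28) (okB 28) 1024 0 tB6 = true := by decide +kernel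

def tB7 : List ℕ := [
    181896, 181896, 181840, 181896, 181777, 172824, 181273, 180762, 153224, 172768, 172824,
    177185, 86808, 166097, 144712, 176674, 165649, 54552, 144208, 120968, 116040, 115536,
    144488, 172579, 165145]

theorem walkB7 : walk (goodB 54) (okB 54) 1024 0 tB7 = true := by decide +kernel

end Pool.Agent.Lib.MP_bc13a4_co.Cyc
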