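import Pool.Agent.Lib.MP_bc13a4_co.Cyc.Perm
import Pool.Agent.Lib.MP_bc13a4_co.Cyc.WalkA
import Pool.Agent.Lib.MP_bc13a4_co.Cyc.WalkB
import Pool.Agent.Lib.MP_bc13a4_co.Cyc.WalkC
import Pool.Agent.Lib.MP_bc13a4_co.Cyc.WalkD

/-!
# Every pattern without the three configurations is isomorphic to one of the list
-/

set_option autoImplicit false

namespace Pool.Agent.Lib.MP_bc13a4_co.Cyc

open Finset

/-- code of the values of `f` along a list -/
def cod (f : ℕ → Bool) (L : List ℕ) : ℕ := L.foldr (fun t acc => 2 * acc + (f t).toNat) 0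

lemma cod_testBit (f : ℕ → Bool) : ∀ (L : List ℕ) (i : ℕ), i < L.length →
    (cod f L).testBit i = f (L.getD i 0) := by
  intro L
  induction L with
  | nil => intro i hi; simp at hi
  | cons t L ih =>
    intro i hi
    have e : cod f (t :: L) = 2 * cod f L + (f t).toNat := rfl
    rw [e]
    cases i with
    | zero =>
      rw [Nat.testBit_zero]
      cases hft : f t <;> simp [hft]
    | succ i =>
      rw [Nat.testBit_succ]
      have h1 : (2 * cod f L + (f t).toNat) / 2 = cod f L := by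
        have : (f t).toNat ≤ 1 := Bool.toNat_le _
        omega
      rw [h1, ih i (by simpa using hi)]
      rfl

lemma cod_lt (f : ℕ → Bool) : ∀ (L : List ℕ), cod f L < 2 ^ L.length := by
  intro L
  induction L with
  | nil => simp [cod]
  | cons t L ih =>
    have e : cod f (t :: L) = 2 * cod f L + (f t).toNat := rfl
    rw [e, List.length_cons, pow_succ]
    have : (f t).toNat ≤ 1 := Bool.toNat_le _
    omega

lemma cod_congr (f g : ℕ → Bool) (L : List ℕ) (h : ∀ t ∈ L, f t = g t) : cod f L = cod g L := by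
  induction L with
  | nil => rfl
  | cons t L ih =>
    have e : cod f (t :: L) = 2 * cod f L + (f t).toNat := rfl
    have e' : cod g (t :: L) = 2 * cod g L + (g t).toNat := rfl
    rw [e, e', h t (by simp), ih fun s hs => h s (by simp [hs])]

lemma cod_append_mod (f : ℕ → Bool) (L : List ℕ) : ∀ (A : List ℕ),
    cod f (A ++ L) % 2 ^ A.length = cod f A := by
  intro A
  induction A with
  | nil => simp [cod, Nat.mod_one]
  | cons t A ih =>
    have e : cod f (t :: A ++ L) = 2 * cod f (A ++ L) + (f t).toNat := rfl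
    have e' : cod f (t :: A) = 2 * cod f A + (f t).toNat := rfl
    rw [e, e', List.length_cons, pow_succ', ← ih]
    have h1 : (f t).toNat ≤ 1 := Bool.toNat_le _
    have h2 := Nat.div_add_mod (cod f (A ++ L)) (2 ^ A.length)
    have h3 : cod f (A ++ L) % 2 ^ A.length < 2 ^ A.length := Nat.mod_lt _ (by positivity)
    have h4 : 2 * cod f (A ++ L) + (f t).toNat
        = (2 * (cod f (A ++ L) % 2 ^ A.length) + (f t).toNat)
          + 2 * 2 ^ A.length * (cod f (A ++ L) / 2 ^ A.length) := by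
      nth_rewrite 1 [← h2]
      ring
    rw [h4, Nat.add_mul_mod_self_left, Nat.mod_eq_of_lt (by omega)]

variable {V : Type*}

/-- symmetric and without degenerate triples -/
structure Sym (e : V → V → V → Bool) : Prop where
  s1 : ∀ a b c, e a b c = e b a c
  s2 : ∀ a b c, e a b c = e a c b
  ir : ∀ a b, e a a b = false

/-- extension of a tuple -/
def ext (w : Fin 6 → V) (n : ℕ) : V := w (Fin.ofNat 6 n)

/-- value of a tuple on a coded triple -/
def ev (e : V → V → V → Bool) (w : Fin 6 → V) (t : ℕ) : Bool :=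
  e (ext w (dig t 0)) (ext w (dig t 1)) (ext w (dig t 2))

/-- code of the pattern of a tuple -/
def mask (e : V → V → V → Bool) (w : Fin 6 → V) : ℕ := cod (ev e w) trL

/-- the triple with code `t` consists of `a, b, c` -/
def isTri (t a b c : ℕ) : Prop :=
  (dig t 0 = a ∧ dig t 1 = b ∧ dig t 2 = c) ∨ (dig t 0 = a ∧ dig t 1 = c ∧ dig t 2 = b) ∨
    (dig t 0 = b ∧ dig t 1 = a ∧ dig t 2 = c) ∨ (dig t 0 = b ∧ dig t 1 = c ∧ dig t 2 = a) ∨
    (dig t 0 = c ∧ dig t 1 = a ∧ dig t 2 = b) ∨ (dig t 0 = c ∧ dig t 1 = b ∧ dig t 2 = a)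

instance (t a b c : ℕ) : Decidable (isTri t a b c) := by
  unfold isTri
  infer_instance

/-- the index of the triple is right -/
def TriOK (a b c : ℕ) : Prop :=
  ((a = b ∨ b = c ∨ a = c) ∧ ix a b c = 31) ∨
    (ix a b c < 20 ∧ (5 ≤ a ∨ 5 ≤ b ∨ 5 ≤ c ∨ ix a b c < 10) ∧
      isTri (trL.getD (ix a b c) 0) a b c)

instance (a b c : ℕ) : Decidable (TriOK a b c) := by
  unfold TriOK
  infer_instance

theorem tri_spec : ∀ a < 6, ∀ b < 6, ∀ c < 6, TriOK a b c := by
  decide +kernel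

lemma mask_lt (e : V → V → V → Bool) (w : Fin 6 → V) : mask e w < 2 ^ 20 := cod_lt _ _

lemma testBit_high {m i k : ℕ} (h : m < 2 ^ k) (hi : k ≤ i) : m.testBit i = false :=
  Nat.testBit_lt_two_pow (lt_of_lt_of_le h (Nat.pow_le_pow_right (by norm_num) hi))

lemma has_mask {e : V → V → V → Bool} (hs : Sym e) (w : Fin 6 → V) {a b c : ℕ} (ha : a < 6)
    (hb : b < 6) (hc : c < 6) :
    has (mask e w) a b c = e (ext w a) (ext w b) (ext w c) := by
  unfold has
  rcases tri_spec a ha b hb c hc with ⟨hd, h31⟩ | ⟨h20, -, ht⟩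
  · rw [h31, testBit_high (mask_lt e w) (by norm_num)]
    symm
    rcases hd with rfl | rfl | rfl
    · exact hs.ir _ _
    · rw [hs.s1, hs.s2]; exact hs.ir _ _
    · rw [hs.s2]; exact hs.ir _ _
  · unfold mask
    rw [cod_testBit _ _ _ h20]
    unfold ev
    rcases ht with ⟨h1, h2, h3⟩ | ⟨h1, h2, h3⟩ | ⟨h1, h2, h3⟩ | ⟨h1, h2, h3⟩ | ⟨h1, h2, h3⟩ |
      ⟨h1, h2, h3⟩
    · rw [h1, h2, h3]
    · rw [h1, h2, h3, hs.s2]
    · rw [h1, h2, h3, hs.s1]
    · rw [h1, h2, h3, hs.s2, hs.s1]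
    · rw [h1, h2, h3, hs.s1, hs.s2]
    · rw [h1, h2, h3, hs.s1, hs.s2, hs.s1]

lemma has_mask5 {e : V → V → V → Bool} (hs : Sym e) (w : Fin 6 → V) {a b c : ℕ} (ha : a < 5)
    (hb : b < 5) (hc : c < 5) :
    has (mask e w % 1024) a b c = e (ext w a) (ext w b) (ext w c) := by
  rw [← has_mask hs w (by omega : a < 6) (by omega : b < 6) (by omega : c < 6)]
  unfold has
  have e10 : (1024 : ℕ) = 2 ^ 10 := by norm_num
  rw [e10, Nat.testBit_mod_two_pow]
  rcases tri_spec a (by omega) b (by omega) c (by omega) with ⟨-, h31⟩ | ⟨-, h10, -⟩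
  · rw [h31, testBit_high (mask_lt e w) (by norm_num)]
    simp
  · have h10' : ix a b c < 10 := by omega
    rw [decide_eq_true h10', Bool.true_and]

lemma ext_comp_toPerm {q : ℕ} (hq : isPerm q = true) (w : Fin 6 → V) {a : ℕ} (ha : a < 6) :
    ext (w ∘ toPerm q) a = ext w (dig q a) := by
  unfold ext
  rw [Function.comp_apply]
  congr 1
  apply Fin.ext
  rw [toPerm_val hq, Fin.val_ofNat, Fin.val_ofNat, Nat.mod_eq_of_lt ha,
    Nat.mod_eq_of_lt (dig_lt_of hq ⟨a, ha⟩)]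

theorem trL_dig : (∀ t ∈ trL, dig t 0 < 6 ∧ dig t 1 < 6 ∧ dig t 2 < 6) ∧
    (∀ t ∈ trL5, dig t 0 < 5 ∧ dig t 1 < 5 ∧ dig t 2 < 5) ∧
    trL = trL5 ++ trL.drop 10 := by
  decide +kernel

lemma mask_relabel {e : V → V → V → Bool} (hs : Sym e) (w : Fin 6 → V) {q : ℕ}
    (hq : isPerm q = true) : mask e (w ∘ toPerm q) = rl trL (mask e w) q := by
  change cod _ trL = cod (fun t => has (mask e w) (dig q (dig t 0)) (dig q (dig t 1))
    (dig q (dig t 2))) trL
  refine cod_congr _ _ _ fun t ht => ?_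
  obtain ⟨h0, h1, h2⟩ := trL_dig.1 t ht
  rw [has_mask hs w (dig_lt_of hq ⟨_, h0⟩) (dig_lt_of hq ⟨_, h1⟩) (dig_lt_of hq ⟨_, h2⟩)]
  unfold ev
  rw [ext_comp_toPerm hq w h0, ext_comp_toPerm hq w h1, ext_comp_toPerm hq w h2]

lemma mask_mod (e : V → V → V → Bool) (w : Fin 6 → V) : mask e w % 1024 = cod (ev e w) trL5 := by
  unfold mask
  rw [trL_dig.2.2]
  exact cod_append_mod (ev e w) (trL.drop 10) trL5

lemma dig_lt5 {q : ℕ} (hq : isPerm q = true) (h5 : dig q 5 = 5) {a : ℕ} (ha : a < 5) :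
    dig q a < 5 := by
  have h6 := dig_lt_of hq ⟨a, by omega⟩
  have hne : dig q a ≠ 5 := by
    intro h
    have h1 : toPerm q ⟨a, by omega⟩ = toPerm q 5 := by
      apply Fin.ext
      rw [toPerm_val hq, toPerm_val hq]
      exact h.trans h5.symm
    have h2 := (toPerm q).injective h1
    have h3 := congrArg Fin.val h2
    simp only at h3
    change a = 5 at h3
    omega
  change dig q a < 6 at h6
  omega

lemma mask_relabel5 {e : V → V → V → Bool} (hs : Sym e) (w : Fin 6 → V) {q : ℕ}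
    (hq : isPerm q = true) (h5 : dig q 5 = 5) :
    mask e (w ∘ toPerm q) % 1024 = rl trL5 (mask e w % 1024) q := by
  rw [mask_mod]
  change cod _ trL5 = cod (fun t => has (mask e w % 1024) (dig q (dig t 0)) (dig q (dig t 1))
    (dig q (dig t 2))) trL5
  refine cod_congr _ _ _ fun t ht => ?_
  obtain ⟨h0, h1, h2⟩ := trL_dig.2.1 t ht
  rw [has_mask5 hs w (dig_lt5 hq h5 h0) (dig_lt5 hq h5 h1) (dig_lt5 hq h5 h2)]
  unfold ev
  rw [ext_comp_toPerm hq w (by omega : dig t 0 < 6), ext_comp_toPerm hq w (by omega : dig t 1 < 6),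
    ext_comp_toPerm hq w (by omega : dig t 2 < 6)]

/-- no configuration inside a tuple -/
structure Free (e : V → V → V → Bool) (w : Fin 6 → V) : Prop where
  k : ∀ a b c d : Fin 6, e (w a) (w b) (w c) = true → e (w a) (w b) (w d) = true →
    e (w a) (w c) (w d) = true → False
  f : ∀ p q r s t : Fin 6, e (w p) (w q) (w r) = true → e (w p) (w s) (w t) = true →
    e (w q) (w s) (w t) = true → e (w r) (w s) (w t) = true → False
  c : ∀ a b c d f : Fin 6, e (w a) (w b) (w d) = true → e (w b) (w c) (w d) = true →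
    e (w a) (w b) (w f) = true → e (w a) (w c) (w f) = true → False

lemma Free.comp {e : V → V → V → Bool} {w : Fin 6 → V} (h : Free e w)
    (σ : Equiv.Perm (Fin 6)) : Free e (w ∘ σ) :=
  ⟨fun a b c d => h.k (σ a) (σ b) (σ c) (σ d),
    fun p q r s t => h.f (σ p) (σ q) (σ r) (σ s) (σ t),
    fun a b c d f => h.c (σ a) (σ b) (σ c) (σ d) (σ f)⟩

lemma forb_free {e : V → V → V → Bool} (hs : Sym e) {w : Fin 6 → V} (hw : Free e w) {F : ℕ}
    (hF : F ∈ forb6) (h : ∀ i, F.testBit i = true → (mask e w).testBit i = true) : False := by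
  have key : ∀ a b c, a < 6 → b < 6 → c < 6 → F.testBit (ix a b c) = true →
      e (ext w a) (ext w b) (ext w c) = true := by
    intro a b c ha hb hc hbit
    rw [← has_mask hs w ha hb hc]
    exact h _ hbit
  rw [forb6_eq, List.mem_append, List.mem_append, List.mem_map, List.mem_map, List.mem_map] at hF
  rcases hF with ⟨q, hq, rfl⟩ | ⟨q, hq, rfl⟩ | ⟨q, hq, rfl⟩
  · obtain ⟨h0, h1, h2, h3⟩ := dig_lt.1 q hq
    refine hw.k (Fin.ofNat 6 (dig q 0)) (Fin.ofNat 6 (dig q 1)) (Fin.ofNat 6 (dig q 2))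
      (Fin.ofNat 6 (dig q 3)) (key _ _ _ h0 h1 h2 ?_) (key _ _ _ h0 h1 h3 ?_)
      (key _ _ _ h0 h2 h3 ?_)
    all_goals
      unfold kmask
      simp [Nat.one_shiftLeft, Nat.testBit_or, Nat.testBit_two_pow]
  · obtain ⟨h0, h1, h2, h3, h4⟩ := dig_lt.2.1 q hq
    refine hw.f (Fin.ofNat 6 (dig q 0)) (Fin.ofNat 6 (dig q 1)) (Fin.ofNat 6 (dig q 2))
      (Fin.ofNat 6 (dig q 3)) (Fin.ofNat 6 (dig q 4)) (key _ _ _ h0 h1 h2 ?_)
      (key _ _ _ h0 h3 h4 ?_) (key _ _ _ h1 h3 h4 ?_) (key _ _ _ h2 h3 h4 ?_)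
    all_goals
      unfold fmask
      simp [Nat.one_shiftLeft, Nat.testBit_or, Nat.testBit_two_pow]
  · obtain ⟨h0, h1, h2, h3, h4⟩ := dig_lt.2.2 q hq
    refine hw.c (Fin.ofNat 6 (dig q 0)) (Fin.ofNat 6 (dig q 1)) (Fin.ofNat 6 (dig q 2))
      (Fin.ofNat 6 (dig q 3)) (Fin.ofNat 6 (dig q 4)) (key _ _ _ h0 h1 h3 ?_)
      (key _ _ _ h1 h2 h3 ?_) (key _ _ _ h0 h1 h4 ?_) (key _ _ _ h0 h2 h4 ?_)
    all_goals
      unfold cmask
      simp [Nat.one_shiftLeft, Nat.testBit_or, Nat.testBit_two_pow]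

lemma sub_of_land {m F : ℕ} (h : Nat.land m F = F) : ∀ i, F.testBit i = true →
    m.testBit i = true := by
  intro i hi
  have h1 : (m &&& F).testBit i = true := by
    change (Nat.land m F).testBit i = true
    rw [h]; exact hi
  rw [Nat.testBit_and, Bool.and_eq_true] at h1
  exact h1.1

lemma good6 {e : V → V → V → Bool} (hs : Sym e) {w : Fin 6 → V} (hw : Free e w) :
    goodL forb6 (mask e w) = true := by
  unfold goodL
  rw [List.all_eq_true]
  intro F hF
  rw [Bool.not_eq_true']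
  by_contra hb
  rw [Bool.not_eq_false] at hb
  exact forb_free hs hw hF (sub_of_land (Nat.eq_of_beq_eq_true hb))

lemma good5 {e : V → V → V → Bool} (hs : Sym e) {w : Fin 6 → V} (hw : Free e w) :
    goodL forb5 (mask e w % 1024) = true := by
  unfold goodL
  rw [List.all_eq_true]
  intro F hF
  rw [Bool.not_eq_true']
  by_contra hb
  rw [Bool.not_eq_false] at hb
  refine forb_free hs hw (forb5_sub F hF).1 fun i hi => ?_
  have h1 := sub_of_land (Nat.eq_of_beq_eq_true hb) i hi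
  have e10 : (1024 : ℕ) = 2 ^ 10 := by norm_num
  rw [e10, Nat.testBit_mod_two_pow, Bool.and_eq_true] at h1
  exact h1.2

theorem reps5_cases : ∀ r ∈ reps5, r = 0 ∨ r = 1 ∨ r = 3 ∨ r = 19 ∨ r = 20 ∨ r = 21 ∨ r = 28 ∨
    r = 54 := by decide

lemma stepB {e : V → V → V → Bool} (hs : Sym e) (w : Fin 6 → V) (hw : Free e w) (r : ℕ)
    (T : List ℕ) (hwalk : walk (goodB r) (okB r) 1024 0 T = true) (hr : mask e w % 1024 = r) :
    ∃ τ : Equiv.Perm (Fin 6), mask e (w ∘ τ) ∈ reps6a ∨ mask e (w ∘ τ) ∈ reps6b ∨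
      mask e (w ∘ τ) ∈ reps6c := by
  have hm : mask e w = r + 1024 * (mask e w / 1024) := by
    rw [← hr]
    exact (Nat.mod_add_div _ _).symm
  have hl : mask e w / 1024 < 1024 := by
    have := mask_lt e w
    rw [Nat.div_lt_iff_lt_mul (by norm_num)]
    exact lt_of_lt_of_eq this (by norm_num)
  obtain ⟨q, hq⟩ := walk_spec _ _ 1024 0 T hwalk (mask e w / 1024) hl (by
    rw [Nat.zero_add]
    unfold goodB
    rw [← hm]
    exact good6 hs hw)
  rw [Nat.zero_add] at hq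
  unfold okB at hq
  rw [Bool.and_eq_true, ← hm] at hq
  refine ⟨toPerm q, ?_⟩
  rw [mask_relabel hs w hq.1]
  have h2 := hq.2
  rw [Bool.or_eq_true, Bool.or_eq_true, List.elem_iff, List.elem_iff, List.elem_iff] at h2
  tauto

/-- **classification** -/
theorem exists_rep {e : V → V → V → Bool} (hs : Sym e) (w : Fin 6 → V) (hw : Free e w) :
    ∃ τ : Equiv.Perm (Fin 6), mask e (w ∘ τ) ∈ reps6a ∨ mask e (w ∘ τ) ∈ reps6b ∨
      mask e (w ∘ τ) ∈ reps6c := by
  obtain ⟨q, hq⟩ := walk_spec _ _ 1024 0 tA walkA (mask e w % 1024) (Nat.mod_lt _ (by norm_num))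
    (by rw [Nat.zero_add]; exact good5 hs hw)
  rw [Nat.zero_add] at hq
  unfold okA at hq
  rw [Bool.and_eq_true, Bool.and_eq_true, beq_iff_eq, List.elem_iff] at hq
  obtain ⟨⟨hp, h5⟩, hr⟩ := hq
  rw [← mask_relabel5 hs w hp h5] at hr
  set w' := w ∘ toPerm q with hw'
  have hfree : Free e w' := hw.comp _
  have main : ∃ τ : Equiv.Perm (Fin 6), mask e (w' ∘ τ) ∈ reps6a ∨ mask e (w' ∘ τ) ∈ reps6b ∨
      mask e (w' ∘ τ) ∈ reps6c := by
    rcases reps5_cases _ hr with h | h | h | h | h | h | h | h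
    · exact stepB hs w' hfree 0 tB0 walkB0 h
    · exact stepB hs w' hfree 1 tB1 walkB1 h
    · exact stepB hs w' hfree 3 tB2 walkB2 h
    · exact stepB hs w' hfree 19 tB3 walkB3 h
    · exact stepB hs w' hfree 20 tB4 walkB4 h
    · exact stepB hs w' hfree 21 tB5 walkB5 h
    · exact stepB hs w' hfree 28 tB6 walkB6 h
    · exact stepB hs w' hfree 54 tB7 walkB7 h
  obtain ⟨τ, hτ⟩ := main
  refine ⟨toPerm q * τ, ?_⟩
  have : w ∘ (toPerm q * τ : Equiv.Perm (Fin 6)) = w' ∘ τ := rfl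
  rw [this]
  exact hτ

end Pool.Agent.Lib.MP_bc13a4_co.Cyc
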