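import Pool.Agent.Lib.MP_bc13a4_co.Cyc.Pat

/-!
# Sums over the permutations of six points
-/

set_option autoImplicit false

namespace Pool.Agent.Lib.MP_bc13a4_co.Cyc

open Finset

theorem permL_ok : (∀ q ∈ permL, isPerm q = true ∧
    q = dig q 0 + 8 * dig q 1 + 64 * dig q 2 + 512 * dig q 3 + 4096 * dig q 4 +
      32768 * dig q 5) ∧ permL.length = 720 := by
  decide +kernel

theorem permL_chain : permL.IsChain (· < ·) := by
  decide +kernel

theorem permL_nodup : permL.Nodup := by
  have h : permL.Pairwise (· < ·) := List.isChain_iff_pairwise.1 permL_chain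
  exact h.imp fun h => ne_of_lt h

/-- the digits as a map of `Fin 6` -/
def digF (q : ℕ) (i : Fin 6) : Fin 6 := Fin.ofNat 6 (dig q i)

lemma dig_lt_of {q : ℕ} (h : isPerm q = true) (i : Fin 6) : dig q i < 6 := by
  unfold isPerm at h
  simp only [Bool.and_eq_true, Nat.blt_eq] at h
  obtain ⟨⟨⟨⟨⟨⟨h0, h1⟩, h2⟩, h3⟩, h4⟩, h5⟩, -⟩ := h
  fin_cases i
  · exact h0
  · exact h1
  · exact h2
  · exact h3
  · exact h4
  · exact h5

lemma digF_val {q : ℕ} (h : isPerm q = true) (i : Fin 6) : (digF q i : ℕ) = dig q i := by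
  unfold digF
  rw [Fin.val_ofNat]
  exact Nat.mod_eq_of_lt (dig_lt_of h i)

lemma digF_surj {q : ℕ} (h : isPerm q = true) : Function.Surjective (digF q) := by
  intro y
  have h' := h
  unfold isPerm at h'
  simp only [Bool.and_eq_true, beq_iff_eq] at h'
  have hm := h'.2
  have hy : Nat.testBit 63 y = true := by fin_cases y <;> decide
  rw [← hm] at hy
  simp only [Nat.testBit_or, Nat.one_shiftLeft, Nat.testBit_two_pow, Bool.or_eq_true,
    decide_eq_true_eq] at hy
  rcases hy with ((((hy | hy) | hy) | hy) | hy) | hy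
  · exact ⟨0, Fin.ext (by rw [digF_val h]; exact hy)⟩
  · exact ⟨1, Fin.ext (by rw [digF_val h]; exact hy)⟩
  · exact ⟨2, Fin.ext (by rw [digF_val h]; exact hy)⟩
  · exact ⟨3, Fin.ext (by rw [digF_val h]; exact hy)⟩
  · exact ⟨4, Fin.ext (by rw [digF_val h]; exact hy)⟩
  · exact ⟨5, Fin.ext (by rw [digF_val h]; exact hy)⟩

/-- the permutation of a code -/
noncomputable def toPerm (q : ℕ) : Equiv.Perm (Fin 6) :=
  if h : isPerm q = true then
    Equiv.ofBijective (digF q) ⟨Finite.injective_iff_surjective.2 (digF_surj h), digF_surj h⟩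
  else 1

lemma toPerm_val {q : ℕ} (h : isPerm q = true) (i : Fin 6) :
    ((toPerm q i : Fin 6) : ℕ) = dig q i := by
  unfold toPerm
  rw [dif_pos h, Equiv.ofBijective_apply, digF_val h]

/-- **sums over the permutations** -/
theorem sum_perm {M : Type*} [AddCommMonoid M] (F : Equiv.Perm (Fin 6) → M) :
    ∑ σ : Equiv.Perm (Fin 6), F σ = (permL.map (fun q => F (toPerm q))).sum := by
  have hinj : Set.InjOn toPerm (permL.toFinset : Set ℕ) := by
    intro q hq r hr hqr
    have hq' := permL_ok.1 q (by simpa using hq)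
    have hr' := permL_ok.1 r (by simpa using hr)
    have h : ∀ i : Fin 6, dig q i = dig r i := by
      intro i
      rw [← toPerm_val hq'.1, ← toPerm_val hr'.1, hqr]
    have h0 := h 0
    have h1 := h 1
    have h2 := h 2
    have h3 := h 3
    have h4 := h 4
    have h5 := h 5
    simp only [Fin.isValue, Fin.val_zero, Fin.val_one] at h0 h1
    change dig q 2 = dig r 2 at h2
    change dig q 3 = dig r 3 at h3
    change dig q 4 = dig r 4 at h4
    change dig q 5 = dig r 5 at h5
    rw [hq'.2, hr'.2, h0, h1, h2, h3, h4, h5]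
  have himg : (permL.toFinset).image toPerm = Finset.univ := by
    apply Finset.eq_univ_of_card
    rw [Finset.card_image_of_injOn hinj, List.toFinset_card_of_nodup permL_nodup, permL_ok.2,
      Fintype.card_perm, Fintype.card_fin]
    rfl
  rw [← himg, Finset.sum_image hinj, List.sum_toFinset _ permL_nodup]

end Pool.Agent.Lib.MP_bc13a4_co.Cyc
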