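import Pool.Agent.Lib.MP_bc13a4_co.Cyc.Bound

/-!
# The test function has non-negative mean
-/

set_option autoImplicit false

namespace Pool.Agent.Lib.MP_bc13a4_co.Cyc

open Finset

/-- the four linear forms of the even part and the two of the odd part -/
def w0 (k : ℕ) : ℤ := ([0, 1, 1, 0, 0, 0, 0, 0, 0, 0, 0, 0, 0, 0, 0, 0] : List ℤ).getD k 0

def w1 (k : ℕ) : ℤ := ([0, 0, 0, 0, 1, 0, 0, 0, 1, 0, 0, 0, 0, 0, 0, 0] : List ℤ).getD k 0

def w2 (k : ℕ) : ℤ := ([2, 0, 0, -4, 0, -1, -1, 0, 0, -1, -1, 0, -7, 0, 0, 0] : List ℤ).getD k 0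

def w3 (k : ℕ) : ℤ := ([0, 0, 0, 4, 0, -1, -1, 0, 0, -1, -1, 0, 0, 0, 0, 0] : List ℤ).getD k 0

def u0 (k : ℕ) : ℤ := ([0, 0, 0, 0, 1, 0, 0, 0, -1, 0, 0, 0, 0, 0, 0, 0] : List ℤ).getD k 0

def u1 (k : ℕ) : ℤ := ([0, 0, 0, 0, 0, 1, 1, 0, 0, -1, -1, 0, 0, 0, 0, 0] : List ℤ).getD k 0

theorem q2_table : ∀ k < 16, ∀ l < 16, (q2p k l : ℤ) - (q2n k l : ℤ) =
    272 * (w0 k * w0 l) + 143 * (w1 k * w1 l) + 8 * (w2 k * w2 l) + 15 * (w3 k * w3 l)
      - 191 * (w0 k * w1 l) - 191 * (w1 k * w0 l) - 14 * (w0 k * w2 l) - 14 * (w2 k * w0 l)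
      + 43 * (w0 k * w3 l) + 43 * (w3 k * w0 l) + 6 * (w1 k * w2 l) + 6 * (w2 k * w1 l)
      - 35 * (w1 k * w3 l) - 35 * (w3 k * w1 l) + 2 * (w2 k * w3 l) + 2 * (w3 k * w2 l)
      + 244 * (u0 k * u0 l) + 153 * (u1 k * u1 l) + 131 * (u0 k * u1 l)
      + 131 * (u1 k * u0 l) := by
  decide +kernel

lemma form_nonneg (A B C D E F : ℝ) :
    0 ≤ 272 * (A * A) + 143 * (B * B) + 8 * (C * C) + 15 * (D * D)
      - 191 * (A * B) - 191 * (B * A) - 14 * (A * C) - 14 * (C * A)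
      + 43 * (A * D) + 43 * (D * A) + 6 * (B * C) + 6 * (C * B)
      - 35 * (B * D) - 35 * (D * B) + 2 * (C * D) + 2 * (D * C)
      + 244 * (E * E) + 153 * (F * F) + 131 * (E * F) + 131 * (F * E) := by
  have h : 272 * (A * A) + 143 * (B * B) + 8 * (C * C) + 15 * (D * D)
      - 191 * (A * B) - 191 * (B * A) - 14 * (A * C) - 14 * (C * A)
      + 43 * (A * D) + 43 * (D * A) + 6 * (B * C) + 6 * (C * B)
      - 35 * (B * D) - 35 * (D * B) + 2 * (C * D) + 2 * (D * C)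
      + 244 * (E * E) + 153 * (F * F) + 131 * (E * F) + 131 * (F * E)
      = 272 * (A - 191 / 272 * B - 7 / 136 * C + 43 / 272 * D) ^ 2
        + 2415 / 272 * (B - 1042 / 2415 * C - 1307 / 2415 * D) ^ 2
        + 13588 / 2415 * (C + 1292 / 3397 * D) ^ 2 + 16264 / 3397 * D ^ 2
        + 244 * (E + 131 / 244 * F) ^ 2 + 20171 / 244 * F ^ 2 := by ring
  rw [h]
  positivity

/-- product of two weighted sums -/
lemma sum_prod {P : Type*} [Fintype P] (y u v : P → ℝ) :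
    ∑ p, ∑ p', y p * y p' * (u p * v p') = (∑ p, y p * u p) * (∑ p, y p * v p) := by
  rw [Finset.sum_mul_sum]
  refine Finset.sum_congr rfl fun p _ => Finset.sum_congr rfl fun p' _ => ?_
  ring

lemma quad_nonneg {P : Type*} [Fintype P] (y : P → ℝ) (K : P → ℕ) (hK : ∀ p, K p < 16) :
    0 ≤ ∑ p, ∑ p', y p * y p' * ((q2p (K p) (K p') : ℝ) - (q2n (K p) (K p') : ℝ)) := by
  have h1 : ∀ p p', y p * y p' * ((q2p (K p) (K p') : ℝ) - (q2n (K p) (K p') : ℝ)) =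
      272 * (y p * y p' * ((w0 (K p) : ℝ) * (w0 (K p') : ℝ)))
      + 143 * (y p * y p' * ((w1 (K p) : ℝ) * (w1 (K p') : ℝ)))
      + 8 * (y p * y p' * ((w2 (K p) : ℝ) * (w2 (K p') : ℝ)))
      + 15 * (y p * y p' * ((w3 (K p) : ℝ) * (w3 (K p') : ℝ)))
      - 191 * (y p * y p' * ((w0 (K p) : ℝ) * (w1 (K p') : ℝ)))
      - 191 * (y p * y p' * ((w1 (K p) : ℝ) * (w0 (K p') : ℝ)))
      - 14 * (y p * y p' * ((w0 (K p) : ℝ) * (w2 (K p') : ℝ)))
      - 14 * (y p * y p' * ((w2 (K p) : ℝ) * (w0 (K p') : ℝ)))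
      + 43 * (y p * y p' * ((w0 (K p) : ℝ) * (w3 (K p') : ℝ)))
      + 43 * (y p * y p' * ((w3 (K p) : ℝ) * (w0 (K p') : ℝ)))
      + 6 * (y p * y p' * ((w1 (K p) : ℝ) * (w2 (K p') : ℝ)))
      + 6 * (y p * y p' * ((w2 (K p) : ℝ) * (w1 (K p') : ℝ)))
      - 35 * (y p * y p' * ((w1 (K p) : ℝ) * (w3 (K p') : ℝ)))
      - 35 * (y p * y p' * ((w3 (K p) : ℝ) * (w1 (K p') : ℝ)))
      + 2 * (y p * y p' * ((w2 (K p) : ℝ) * (w3 (K p') : ℝ)))
      + 2 * (y p * y p' * ((w3 (K p) : ℝ) * (w2 (K p') : ℝ)))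
      + 244 * (y p * y p' * ((u0 (K p) : ℝ) * (u0 (K p') : ℝ)))
      + 153 * (y p * y p' * ((u1 (K p) : ℝ) * (u1 (K p') : ℝ)))
      + 131 * (y p * y p' * ((u0 (K p) : ℝ) * (u1 (K p') : ℝ)))
      + 131 * (y p * y p' * ((u1 (K p) : ℝ) * (u0 (K p') : ℝ))) := by
    intro p p'
    have h := q2_table _ (hK p) _ (hK p')
    have h' : ((q2p (K p) (K p') : ℝ) - (q2n (K p) (K p') : ℝ)) =
        (((q2p (K p) (K p') : ℤ) - (q2n (K p) (K p') : ℤ) : ℤ) : ℝ) := by push_cast; rfl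
    rw [h', h]
    push_cast
    ring
  have h2 : ∑ p, ∑ p', y p * y p' * ((q2p (K p) (K p') : ℝ) - (q2n (K p) (K p') : ℝ)) =
      272 * ((∑ p, y p * (w0 (K p) : ℝ)) * (∑ p, y p * (w0 (K p) : ℝ)))
      + 143 * ((∑ p, y p * (w1 (K p) : ℝ)) * (∑ p, y p * (w1 (K p) : ℝ)))
      + 8 * ((∑ p, y p * (w2 (K p) : ℝ)) * (∑ p, y p * (w2 (K p) : ℝ)))
      + 15 * ((∑ p, y p * (w3 (K p) : ℝ)) * (∑ p, y p * (w3 (K p) : ℝ)))
      - 191 * ((∑ p, y p * (w0 (K p) : ℝ)) * (∑ p, y p * (w1 (K p) : ℝ)))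
      - 191 * ((∑ p, y p * (w1 (K p) : ℝ)) * (∑ p, y p * (w0 (K p) : ℝ)))
      - 14 * ((∑ p, y p * (w0 (K p) : ℝ)) * (∑ p, y p * (w2 (K p) : ℝ)))
      - 14 * ((∑ p, y p * (w2 (K p) : ℝ)) * (∑ p, y p * (w0 (K p) : ℝ)))
      + 43 * ((∑ p, y p * (w0 (K p) : ℝ)) * (∑ p, y p * (w3 (K p) : ℝ)))
      + 43 * ((∑ p, y p * (w3 (K p) : ℝ)) * (∑ p, y p * (w0 (K p) : ℝ)))
      + 6 * ((∑ p, y p * (w1 (K p) : ℝ)) * (∑ p, y p * (w2 (K p) : ℝ)))
      + 6 * ((∑ p, y p * (w2 (K p) : ℝ)) * (∑ p, y p * (w1 (K p) : ℝ)))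
      - 35 * ((∑ p, y p * (w1 (K p) : ℝ)) * (∑ p, y p * (w3 (K p) : ℝ)))
      - 35 * ((∑ p, y p * (w3 (K p) : ℝ)) * (∑ p, y p * (w1 (K p) : ℝ)))
      + 2 * ((∑ p, y p * (w2 (K p) : ℝ)) * (∑ p, y p * (w3 (K p) : ℝ)))
      + 2 * ((∑ p, y p * (w3 (K p) : ℝ)) * (∑ p, y p * (w2 (K p) : ℝ)))
      + 244 * ((∑ p, y p * (u0 (K p) : ℝ)) * (∑ p, y p * (u0 (K p) : ℝ)))
      + 153 * ((∑ p, y p * (u1 (K p) : ℝ)) * (∑ p, y p * (u1 (K p) : ℝ)))
      + 131 * ((∑ p, y p * (u0 (K p) : ℝ)) * (∑ p, y p * (u1 (K p) : ℝ)))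
      + 131 * ((∑ p, y p * (u1 (K p) : ℝ)) * (∑ p, y p * (u0 (K p) : ℝ))) := by
    simp only [h1, Finset.sum_add_distrib, Finset.sum_sub_distrib, ← Finset.mul_sum, sum_prod]
  rw [h2]
  exact form_nonneg _ _ _ _ _ _

section

variable {V : Type*} [Fintype V]

/-- tuples of six points -/
def eq6 (V : Type*) : (Fin 6 → V) ≃ V × V × V × V × V × V where
  toFun w := (w 0, w 1, w 2, w 3, w 4, w 5)
  invFun p := ![p.1, p.2.1, p.2.2.1, p.2.2.2.1, p.2.2.2.2.1, p.2.2.2.2.2]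
  left_inv w := by
    funext i
    fin_cases i <;> rfl
  right_inv p := rfl

lemma sum6 (F : V → V → V → V → V → V → ℝ) :
    ∑ w : Fin 6 → V, F (w 0) (w 1) (w 2) (w 3) (w 4) (w 5) =
      ∑ a, ∑ b, ∑ c, ∑ d, ∑ e, ∑ f, F a b c d e f := by
  have h1 : ∑ w : Fin 6 → V, F (w 0) (w 1) (w 2) (w 3) (w 4) (w 5) =
      ∑ p : V × V × V × V × V × V, F p.1 p.2.1 p.2.2.1 p.2.2.2.1 p.2.2.2.2.1 p.2.2.2.2.2 :=
    Fintype.sum_equiv (eq6 V) _ _ fun w => rfl
  rw [h1]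
  simp only [Fintype.sum_prod_type]

/-- weight of a tuple -/
def wt (x : V → ℝ) (w : Fin 6 → V) : ℝ := ∏ i, x (w i)

omit [Fintype V] in
lemma wt_eq (x : V → ℝ) (w : Fin 6 → V) :
    wt x w = x (w 0) * x (w 1) * x (w 2) * x (w 3) * x (w 4) * x (w 5) := by
  unfold wt
  rw [Fin.prod_univ_six]

/-- **the test function has non-negative mean** -/
theorem mean_ge (h : V → V → V → Bool) (x : V → ℝ) (hx : ∀ v, 0 ≤ x v) :
    144 * (∑ a, ∑ b, ∑ c, if h a b c = true then x a * x b * x c else 0) * (∑ v, x v) ^ 3 ≤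
      ∑ w : Fin 6 → V, wt x w * ((PP h w : ℝ) - (NN h w : ℝ)) := by
  -- nested sums
  have e1 : ∑ w : Fin 6 → V, wt x w * ((PP h w : ℝ) - (NN h w : ℝ)) =
      ∑ a, ∑ b, ∑ c, ∑ d, ∑ e, ∑ f, x a * x b * x c * x d * x e * x f *
        ((PhiP h a b c d e f : ℝ) - (PhiN h a b c d e f : ℝ)) := by
    rw [← sum6 (fun a b c d e f => x a * x b * x c * x d * x e * x f *
        ((PhiP h a b c d e f : ℝ) - (PhiN h a b c d e f : ℝ)))]
    exact Finset.sum_congr rfl fun w _ => by rw [wt_eq]; rfl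
  -- the three parts
  have e2 : ∀ a b c d e f : V, x a * x b * x c * x d * x e * x f *
        ((PhiP h a b c d e f : ℝ) - (PhiN h a b c d e f : ℝ)) =
      144 * (if h a b c = true then x a * x b * x c else 0) * (x d * x e * x f)
      + x a * x b * ((x c * x d) * (x e * x f) *
          ((q2p (code4 h a b c d) (code4 h a b e f) : ℝ) -
            (q2n (code4 h a b c d) (code4 h a b e f) : ℝ)))
      + (if (h a b c && h a b d) = true then 463 * (x a * x b * x c * x d) else 0) *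
          ((x e * ((gp h a b c e : ℝ) - (gp h a b d e : ℝ))) *
            (x f * ((gp h a b c f : ℝ) - (gp h a b d f : ℝ)))) := by
    intro a b c d e f
    unfold PhiP PhiN
    cases h a b c <;> cases h a b d <;>
      simp only [Bool.and_true, Bool.and_false, cond_true, cond_false, if_true, if_false,
        Bool.false_eq_true] <;> push_cast <;> ring
  have pA : ∑ a, ∑ b, ∑ c, ∑ d, ∑ e, ∑ f,
      144 * (if h a b c = true then x a * x b * x c else 0) * (x d * x e * x f) =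
      144 * (∑ a, ∑ b, ∑ c, if h a b c = true then x a * x b * x c else 0) *
        (∑ v, x v) ^ 3 := by
    have h1 : ∑ d, ∑ e, ∑ f, x d * x e * x f = (∑ v, x v) ^ 3 := by
      simp only [← Finset.mul_sum, ← Finset.sum_mul]
      ring
    have h2 : ∀ a b c, ∑ d, ∑ e, ∑ f,
        144 * (if h a b c = true then x a * x b * x c else 0) * (x d * x e * x f) =
        144 * (if h a b c = true then x a * x b * x c else 0) * (∑ v, x v) ^ 3 := by
      intro a b c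
      rw [← h1]
      simp only [Finset.mul_sum]
    simp only [h2, Finset.mul_sum, Finset.sum_mul]
  have pB : 0 ≤ ∑ a, ∑ b, ∑ c, ∑ d, ∑ e, ∑ f, x a * x b * ((x c * x d) * (x e * x f) *
          ((q2p (code4 h a b c d) (code4 h a b e f) : ℝ) -
            (q2n (code4 h a b c d) (code4 h a b e f) : ℝ))) := by
    refine Finset.sum_nonneg fun a _ => Finset.sum_nonneg fun b _ => ?_
    have h1 : ∑ c, ∑ d, ∑ e, ∑ f, x a * x b * ((x c * x d) * (x e * x f) *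
          ((q2p (code4 h a b c d) (code4 h a b e f) : ℝ) -
            (q2n (code4 h a b c d) (code4 h a b e f) : ℝ))) =
        x a * x b * ∑ p : V × V, ∑ p' : V × V, (x p.1 * x p.2) * (x p'.1 * x p'.2) *
          ((q2p (code4 h a b p.1 p.2) (code4 h a b p'.1 p'.2) : ℝ) -
            (q2n (code4 h a b p.1 p.2) (code4 h a b p'.1 p'.2) : ℝ)) := by
      simp only [Fintype.sum_prod_type, Finset.mul_sum]
    rw [h1]
    exact mul_nonneg (mul_nonneg (hx a) (hx b))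
      (quad_nonneg (fun p : V × V => x p.1 * x p.2) (fun p => code4 h a b p.1 p.2)
        fun p => code4_lt _ _ _ _)
  have pC : 0 ≤ ∑ a, ∑ b, ∑ c, ∑ d, ∑ e, ∑ f,
      (if (h a b c && h a b d) = true then 463 * (x a * x b * x c * x d) else 0) *
          ((x e * ((gp h a b c e : ℝ) - (gp h a b d e : ℝ))) *
            (x f * ((gp h a b c f : ℝ) - (gp h a b d f : ℝ)))) := by
    refine Finset.sum_nonneg fun a _ => Finset.sum_nonneg fun b _ =>
      Finset.sum_nonneg fun c _ => Finset.sum_nonneg fun d _ => ?_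
    have h1 : ∑ e, ∑ f,
      (if (h a b c && h a b d) = true then 463 * (x a * x b * x c * x d) else 0) *
          ((x e * ((gp h a b c e : ℝ) - (gp h a b d e : ℝ))) *
            (x f * ((gp h a b c f : ℝ) - (gp h a b d f : ℝ)))) =
        (if (h a b c && h a b d) = true then 463 * (x a * x b * x c * x d) else 0) *
          (∑ e, x e * ((gp h a b c e : ℝ) - (gp h a b d e : ℝ))) ^ 2 := by
      rw [sq, Finset.sum_mul_sum, Finset.mul_sum]
      exact Finset.sum_congr rfl fun e _ => by rw [Finset.mul_sum]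
    rw [h1]
    refine mul_nonneg ?_ (sq_nonneg _)
    split_ifs
    · have := hx a
      have := hx b
      have := hx c
      have := hx d
      positivity
    · exact le_rfl
  rw [e1]
  simp only [e2, Finset.sum_add_distrib]
  rw [pA]
  linarith

end

end Pool.Agent.Lib.MP_bc13a4_co.Cyc
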